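import Mathlib
import Pool.Agent.J6H60.DR.CoreW3
import Pool.Agent.Y725.LS.Core

/-!
# Elements of the box with values of small radical: sharp count
-/

set_option autoImplicit false
set_option linter.unusedSectionVars false

namespace Pool.Agent.J6H73.PS

open NumberField IsDedekindDomain Module Pool.Agent.N753.DR Height
open H645.ABC (sF S_count poly_count sets_count pow_card_le finite_units)
open Pool.Agent.J6H60.DR (rk fibre exists_den mem_of_sF mulHeight_le)

section one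

variable {K L : Type} [Field K] [NumberField K] [Field L] [NumberField L] [Algebra K L]

/-- the primes above a finite set -/
theorem exists_over (V : Finset (HeightOneSpectrum (𝓞 K))) :
    ∃ T : Finset (HeightOneSpectrum (𝓞 L)), (∀ w, HeightOneSpectrum.under (𝓞 K) w ∈ V → w ∈ T) ∧
      T.card ≤ finrank K L * V.card := by
  classical
  have h1 : ∀ v : HeightOneSpectrum (𝓞 K), ∃ T : Finset (HeightOneSpectrum (𝓞 L)),
      (∀ w, HeightOneSpectrum.under (𝓞 K) w = v → w ∈ T) ∧ T.card ≤ finrank K L := by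
    intro v
    obtain ⟨T, hT, -⟩ := Pool.Agent.J6H60.DR.sum_over_le (L := L) v
    refine ⟨T.filter fun w => HeightOneSpectrum.under (𝓞 K) w = v, fun w hw => ?_, ?_⟩
    · rw [Finset.mem_filter]
      refine ⟨(hT w).2 ?_, hw⟩
      rw [← hw]
      exact ⟨rfl⟩
    · have h2 := Pool.Agent.Y725.LS.sum_ldeg (K := K) (L := L) (FinitePlace.mk v)
        ((T.filter fun w => HeightOneSpectrum.under (𝓞 K) w = v).image FinitePlace.mk) (by
          intro u hu
          rw [Finset.mem_image] at hu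
          obtain ⟨w, hw, rfl⟩ := hu
          rw [Finset.mem_filter] at hw
          unfold Pool.Agent.Y725.LS.below
          rw [FinitePlace.maximalIdeal_mk, hw.2])
      have hinj : Set.InjOn (FinitePlace.mk : HeightOneSpectrum (𝓞 L) → FinitePlace L)
          (T.filter fun w => HeightOneSpectrum.under (𝓞 K) w = v) := by
        intro w₁ _ w₂ _ h12
        rw [← FinitePlace.maximalIdeal_mk w₁, ← FinitePlace.maximalIdeal_mk w₂, h12]
      rw [Finset.sum_image hinj] at h2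
      refine le_trans ?_ h2
      rw [Finset.card_eq_sum_ones]
      exact Finset.sum_le_sum fun w _ => Pool.Agent.Y725.LS.ldeg_pos K (FinitePlace.mk w)
  choose T hT1 hT2 using h1
  refine ⟨V.biUnion T, fun w hw => Finset.mem_biUnion.2 ⟨_, hw, hT1 _ w rfl⟩, ?_⟩
  refine Finset.card_biUnion_le.trans ?_
  refine (Finset.sum_le_sum fun v _ => hT2 v).trans (le_of_eq ?_)
  rw [Finset.sum_const, smul_eq_mul, mul_comm]

/-- the numbers of bounded height supported above `V` -/
def UV (L : Type) [Field L] [NumberField L] [Algebra K L] (V : Finset (HeightOneSpectrum (𝓞 K)))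
    (X : ℝ) : Set Lˣ :=
  {y | mulHeight₁ (y : L) ≤ X ∧ ∀ w ∈ sF y, HeightOneSpectrum.under (𝓞 K) w ∈ V}

theorem UV_finite (V : Finset (HeightOneSpectrum (𝓞 K))) (X : ℝ) : (UV L V X).Finite := by
  have h := finite_units (K := L) X
  have h1 : {y : Lˣ | mulHeight₁ (y : L) ≤ X}.Finite := Set.finite_coe_iff.1 h
  exact h1.subset fun y hy => hy.1

theorem UV_card {C₁ δ : ℝ} (hC₁ : 1 ≤ C₁) (hδ : 0 < δ) : ∃ (μ : ℕ) (D : ℝ), 1 ≤ μ ∧ 0 < D ∧
    ∀ (V : Finset (HeightOneSpectrum (𝓞 K))) (B : ℝ), 1 ≤ B →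
      ((UV L V ((C₁ * B) ^ finrank ℚ L)).ncard : ℝ) ≤ D * (μ : ℝ) ^ V.card * B ^ δ := by
  classical
  obtain ⟨κ, C2, hC2, h2⟩ := poly_count L
  set N := finrank ℚ L with hN
  -- the exponent
  obtain ⟨m, hm⟩ := exists_nat_ge (2 * κ * N / δ + 1)
  have hm1 : 1 ≤ (m : ℝ) := by
    have : (0 : ℝ) ≤ 2 * κ * N / δ := by positivity
    linarith
  have hm0 : 0 < m := by exact_mod_cast (by linarith : (0 : ℝ) < m)
  have hm0' : (0 : ℝ) < m := by linarith
  have hexp : 2 / (m : ℝ) * N * κ ≤ δ := by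
    have h3 : 2 * κ * N / δ ≤ m := by linarith
    rw [div_le_iff₀ hδ] at h3
    rw [show 2 / (m : ℝ) * N * κ = (2 * κ * N) / m by ring, div_le_iff₀ hm0']
    linarith
  obtain ⟨N₁, h1⟩ := S_count (K := L) m hm0
  refine ⟨m ^ finrank K L, (N₁ + 1) * (C2 * C₁ ^ δ), Nat.one_le_pow _ _ hm0,
    by positivity, fun V B hB => ?_⟩
  obtain ⟨T, hT, hTc⟩ := exists_over (K := K) (L := L) V
  have hCB : 1 ≤ C₁ * B := one_le_mul_of_one_le_of_one_le hC₁ hB
  have hX : 1 ≤ (C₁ * B) ^ N := one_le_pow₀ hCB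
  set X := (C₁ * B) ^ N with hXd
  have h3 := h1 T X hX
  have hX2 : 1 ≤ X ^ (2 / (m : ℝ)) := Real.one_le_rpow hX (by positivity)
  have h4 := h2 (X ^ (2 / (m : ℝ))) hX2
  have h5 : ((UV L V X).ncard : ℝ) ≤
      (Nat.card {y : Lˣ // sF y ⊆ T ∧ mulHeight₁ (y : L) ≤ X} : ℝ) := by
    have hfin : {y : Lˣ | sF y ⊆ T ∧ mulHeight₁ (y : L) ≤ X}.Finite := by
      have h := finite_units (K := L) X
      have h1 : {y : Lˣ | mulHeight₁ (y : L) ≤ X}.Finite := Set.finite_coe_iff.1 h
      exact h1.subset fun y hy => hy.2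
    have h6 : (UV L V X) ⊆ {y : Lˣ | sF y ⊆ T ∧ mulHeight₁ (y : L) ≤ X} :=
      fun y hy => ⟨fun w hw => hT w (hy.2 w hw), hy.1⟩
    exact_mod_cast Set.ncard_le_ncard h6 hfin
  have h7 : (X ^ (2 / (m : ℝ))) ^ κ ≤ C₁ ^ δ * B ^ δ := by
    have hCB0 : 0 ≤ C₁ * B := zero_le_one.trans hCB
    rw [← Real.mul_rpow (by linarith) (by linarith), hXd, ← Real.rpow_natCast (C₁ * B) N,
      ← Real.rpow_natCast _ κ, ← Real.rpow_mul hCB0, ← Real.rpow_mul hCB0]
    refine Real.rpow_le_rpow_of_exponent_le hCB ?_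
    calc (N : ℝ) * (2 / m) * κ = 2 / (m : ℝ) * N * κ := by ring
      _ ≤ δ := hexp
  have h8 : (m : ℝ) ^ T.card ≤ ((m ^ finrank K L : ℕ) : ℝ) ^ V.card := by
    rw [Nat.cast_pow, ← pow_mul]
    exact pow_le_pow_right₀ hm1 hTc
  have h9 : (Nat.card {y : Lˣ // sF y ⊆ T ∧ mulHeight₁ (y : L) ≤ X} : ℝ) ≤
      (m : ℝ) ^ T.card * N₁ * (Nat.card {w : L // mulHeight₁ w ≤ X ^ (2 / (m : ℝ))} : ℝ) := by
    exact_mod_cast h3
  have hm00 : (0 : ℝ) ≤ (m : ℝ) ^ T.card := by positivity
  calc ((UV L V X).ncard : ℝ) ≤ (m : ℝ) ^ T.card * N₁ *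
        (Nat.card {w : L // mulHeight₁ w ≤ X ^ (2 / (m : ℝ))} : ℝ) := h5.trans h9
    _ ≤ (m : ℝ) ^ T.card * N₁ * (C2 * (C₁ ^ δ * B ^ δ)) := by
        refine mul_le_mul_of_nonneg_left (h4.trans ?_) (by positivity)
        exact mul_le_mul_of_nonneg_left h7 hC2.le
    _ ≤ ((m ^ finrank K L : ℕ) : ℝ) ^ V.card * (N₁ + 1) * (C2 * (C₁ ^ δ * B ^ δ)) := by
        refine mul_le_mul_of_nonneg_right ?_ (by positivity)
        exact mul_le_mul h8 (by linarith) (by positivity) (by positivity)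
    _ = _ := by ring

end one

variable {K : Type} [Field K] [NumberField K]

/-- the elements of the box for which the product of all the values has a small radical -/
def ES {m q : ℕ} (L : Fin q → Type) [∀ j, Field (L j)] [∀ j, NumberField (L j)]
    [∀ j, Algebra K (L j)] (γ : ∀ j, Fin m → L j) (Bad : Finset (HeightOneSpectrum (𝓞 K)))
    (B : ℕ) (Z : ℝ) : Set (Fin m → 𝓞 K) :=
  {c | c ∈ Bx K m B ∧ (∀ j, (∑ i, algebraMap K (L j) (c i : K) * γ j i) ≠ 0) ∧
    ∃ W : Finset (HeightOneSpectrum (𝓞 K)),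
      (∀ j, ∀ v ∉ Bad, ∀ w : HeightOneSpectrum (𝓞 (L j)), w.asIdeal.LiesOver v.asIdeal →
        w.valuation (L j) (∑ i, algebraMap K (L j) (c i : K) * γ j i) < 1 → v ∈ W) ∧
      ∑ v ∈ W, lN v ≤ Z}

theorem NS_exp (W : Finset (HeightOneSpectrum (𝓞 K))) :
    H645.ABC.NS K W = Real.exp (∑ w ∈ W, lN w) := Pool.Agent.J6H60.DR.NS_eq W

theorem coreS {m q : ℕ} (L : Fin q → Type) [∀ j, Field (L j)] [∀ j, NumberField (L j)]
    [∀ j, Algebra K (L j)] (γ : ∀ j, Fin m → L j) (Bad : Finset (HeightOneSpectrum (𝓞 K)))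
    {ε : ℝ} (hε : 0 < ε) :
    ∃ C : ℝ, 0 < C ∧ ∀ (B : ℕ) (Z : ℝ), 1 ≤ B → 0 ≤ Z → ((ES L γ Bad B Z).ncard : ℝ) ≤
      C * (B : ℝ) ^ ((finrank ℚ K : ℝ) * (m - rk K L γ : ℕ) + ε) *
        Real.exp ((1 + ε) * Z) := by
  classical
  choose t β ht hβ using fun j => exists_den (γ j)
  set Bd : Finset (HeightOneSpectrum (𝓞 K)) :=
    Bad ∪ (Pool.Agent.N262.DR.badS_finite (K := K) (Finset.univ.image t)).toFinset with hBd
  choose C₁ hC₁ h₁ using fun j => Pool.Agent.N490.CV.CoreB.evB_le (K := K) (β j)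
  set δ : ℝ := ε / (q + 1) with hδ
  have hδ0 : 0 < δ := by positivity
  have hδq : q * δ ≤ ε := by
    rw [hδ, mul_div_assoc', div_le_iff₀ (by positivity)]
    nlinarith
  choose μ D hμ hD hcard using fun j => UV_card (K := K) (L := L j) (hC₁ j) hδ0
  obtain ⟨Cs, hCs, hsets⟩ := sets_count K
  set M : ℕ := ∏ j, μ j with hM
  have hM1 : 1 ≤ M := Finset.one_le_prod' fun j _ => hμ j
  obtain ⟨Cp, hCp, hpow⟩ := pow_card_le (K := K) M hM1 ε hε
  set ρ := rk K L γ with hρ
  refine ⟨3 ^ (finrank ℚ K * (m - ρ)) * (∏ j, D j) * ((M : ℝ) ^ Bd.card * Cp) * Cs, ?_, ?_⟩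
  · have h2 : (0 : ℝ) < ∏ j, D j := Finset.prod_pos fun j _ => hD j
    have h3 : (0 : ℝ) < M := by exact_mod_cast hM1
    positivity
  intro B Z hB hZ
  have hB1 : (1 : ℝ) ≤ B := by exact_mod_cast hB
  have hB0 : (0 : ℝ) < B := by linarith
  have hEf : (ES L γ Bad B Z).Finite :=
    (Pool.Agent.N262.DR.Bx_finite (K := K) m B).subset fun c hc => hc.1
  -- the values
  have hval : ∀ (c : Fin m → 𝓞 K) (j : Fin q), ((evB K (β j) c : 𝓞 (L j)) : L j) =
      t j * ∑ i, algebraMap K (L j) (c i : K) * γ j i := by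
    intro c j
    change algebraMap (𝓞 (L j)) (L j) (∑ i, algebraMap (𝓞 K) (𝓞 (L j)) (c i) * β j i) = _
    rw [map_sum, Finset.mul_sum]
    refine Finset.sum_congr rfl fun i _ => ?_
    rw [map_mul]
    have h1 : algebraMap (𝓞 (L j)) (L j) (algebraMap (𝓞 K) (𝓞 (L j)) (c i)) =
        algebraMap K (L j) (c i : K) := rfl
    have h2 : algebraMap (𝓞 (L j)) (L j) (β j i) = t j * γ j i := hβ j i
    rw [h1, h2]
    ring
  -- the elements which belong to one set of primes
  set EW : Finset (HeightOneSpectrum (𝓞 K)) → Set (Fin m → 𝓞 K) := fun W =>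
    {c | c ∈ Bx K m B ∧ ∀ j, ∃ y : (L j)ˣ,
      (y : L j) = t j * ∑ i, algebraMap K (L j) (c i : K) * γ j i ∧
      y ∈ UV (K := K) (L j) (Bd ∪ W) ((C₁ j * B) ^ finrank ℚ (L j))} with hEW
  have hcov : ∀ c ∈ ES L γ Bad B Z, ∃ W : Finset (HeightOneSpectrum (𝓞 K)),
      H645.ABC.NS K W ≤ Real.exp Z ∧ c ∈ EW W := by
    rintro c ⟨hcB, hne, W, hW, hWZ⟩
    refine ⟨W, ?_, hcB, fun j => ?_⟩
    · rw [NS_exp]
      exact Real.exp_le_exp.2 hWZ
    have htj : (t j : L j) ≠ 0 := by exact_mod_cast ht j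
    have hz : evB K (β j) c ≠ 0 := by
      intro h
      have h1 := hval c j
      rw [h] at h1
      have h2 : ((0 : 𝓞 (L j)) : L j) = 0 := map_zero _
      rw [h2] at h1
      exact mul_ne_zero htj (hne j) h1.symm
    have hzL : (evB K (β j) c : L j) ≠ 0 := by
      intro h
      exact hz (RingOfIntegers.coe_injective (by rw [map_zero]; exact h))
    refine ⟨Units.mk0 _ hzL, hval c j, ?_, ?_⟩
    · rw [Units.val_mk0]
      exact mulHeight_le (one_le_mul_of_one_le_of_one_le (hC₁ j) hB1) fun v => h₁ j B c hcB v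
    · intro w hw
      have hmem := mem_of_sF hz (Units.mk0 _ hzL) rfl hw
      rw [Finset.mem_union]
      by_cases hb : HeightOneSpectrum.under (𝓞 K) w ∈ Bd
      · exact Or.inl hb
      · refine Or.inr (hW j _ (fun h => hb (Finset.mem_union_left _ h)) w ⟨rfl⟩ ?_)
        have hv2 : (t j : 𝓞 K) ∉ (HeightOneSpectrum.under (𝓞 K) w).asIdeal := by
          intro h
          apply hb
          rw [hBd]
          refine Finset.mem_union_right _ ?_
          rw [Set.Finite.mem_toFinset]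
          exact ⟨t j, Finset.mem_image_of_mem _ (Finset.mem_univ j), ht j, h⟩
        have h3 : w.valuation (L j) ((evB K (β j) c : 𝓞 (L j)) : L j) < 1 :=
          (w.valuation_lt_one_iff_mem (K := L j) _).2 hmem
        rw [hval c j, map_mul] at h3
        have h4 : w.valuation (L j) (t j : L j) = 1 := by
          have h5 : (t j : 𝓞 (L j)) ∉ w.asIdeal := by
            intro h6
            apply hv2
            rw [HeightOneSpectrum.under_asIdeal, Ideal.under_def, Ideal.mem_comap, map_natCast]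
            exact h6
          have h7 : w.valuation (L j) ((t j : 𝓞 (L j)) : L j) ≤ 1 := w.valuation_le_one _
          have h8 : ¬ w.valuation (L j) ((t j : 𝓞 (L j)) : L j) < 1 := fun h9 =>
            h5 ((w.valuation_lt_one_iff_mem (K := L j) _).1 h9)
          have h10 : ((t j : 𝓞 (L j)) : L j) = (t j : L j) := map_natCast _ _
          rw [h10] at h7 h8
          exact le_antisymm h7 (not_lt.1 h8)
        rwa [h4, one_mul] at h3
  have hEWf : ∀ W, (EW W).Finite := fun W =>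
    (Pool.Agent.N262.DR.Bx_finite (K := K) m B).subset fun c hc => hc.1
  -- the count for one set of primes
  have hone : ∀ W : Finset (HeightOneSpectrum (𝓞 K)), H645.ABC.NS K W ≤ Real.exp Z →
      ((EW W).ncard : ℝ) ≤ (2 * B + 1 : ℝ) ^ (finrank ℚ K * (m - ρ)) *
        ((∏ j, D j) * ((M : ℝ) ^ Bd.card * Cp * Real.exp (ε * Z)) * (B : ℝ) ^ ε) := by
    intro W hWZ
    have hy : ∀ c ∈ EW W, ∀ j, ∃ y : (L j)ˣ,
      (y : L j) = t j * ∑ i, algebraMap K (L j) (c i : K) * γ j i ∧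
      y ∈ UV (K := K) (L j) (Bd ∪ W) ((C₁ j * B) ^ finrank ℚ (L j)) := fun c hc => hc.2
    choose! Y hY1 hY2 using hy
    let F : Finset (∀ j, (L j)ˣ) := Fintype.piFinset fun j =>
      (UV_finite (K := K) (L := L j) (Bd ∪ W) ((C₁ j * B) ^ finrank ℚ (L j))).toFinset
    have hcard2 : (EW W).ncard ≤ (2 * B + 1) ^ (finrank ℚ K * (m - ρ)) * F.card := by
      rw [Set.ncard_eq_toFinset_card _ (hEWf W)]
      refine Finset.card_le_mul_card_image_of_maps_to (f := fun c j => Y c j) ?_ _ ?_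
      · intro c hc
        rw [Set.Finite.mem_toFinset] at hc
        rw [Fintype.mem_piFinset]
        intro j
        rw [Set.Finite.mem_toFinset]
        exact hY2 c hc j
      · intro y _
        have h1 := fibre (K := K) (V := ∀ j, L j) (fun i : Fin m => (fun j => γ j i : ∀ j, L j)) B
          {c | c ∈ EW W ∧ (fun j => Y c j) = y} (fun c hc => hc.1.1) (by
            rintro c ⟨hc, hcy⟩ c' ⟨hc', hcy'⟩
            funext j
            rw [Finset.sum_apply, Finset.sum_apply]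
            have h2 := hY1 c hc j
            have h3 := hY1 c' hc' j
            have h4 : Y c j = Y c' j := (congrFun hcy j).trans (congrFun hcy' j).symm
            rw [h4, h3] at h2
            have h5 := mul_left_cancel₀ (by exact_mod_cast ht j : (t j : L j) ≠ 0) h2
            simp only [Pi.smul_apply, Algebra.smul_def]
            exact h5.symm)
        refine le_trans (le_of_eq ?_) h1
        rw [← Set.ncard_coe_finset]
        congr 1
        ext c
        rw [Finset.mem_coe, Finset.mem_filter, Set.Finite.mem_toFinset]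
        rfl
    have hFc : (F.card : ℝ) ≤ (∏ j, D j) * ((M : ℝ) ^ Bd.card * Cp * Real.exp (ε * Z)) *
        (B : ℝ) ^ ε := by
      rw [Fintype.card_piFinset, Nat.cast_prod]
      have h1 : ∀ j, (((UV_finite (K := K) (L := L j) (Bd ∪ W)
          ((C₁ j * B) ^ finrank ℚ (L j))).toFinset.card : ℕ) : ℝ) ≤
          D j * (μ j : ℝ) ^ (Bd ∪ W).card * (B : ℝ) ^ δ := by
        intro j
        rw [← Set.ncard_eq_toFinset_card _ (UV_finite _ _)]
        exact hcard j (Bd ∪ W) B hB1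
      refine (Finset.prod_le_prod (fun j _ => Nat.cast_nonneg _) fun j _ => h1 j).trans ?_
      rw [Finset.prod_mul_distrib, Finset.prod_mul_distrib, Finset.prod_pow, Finset.prod_const,
        Finset.card_univ, Fintype.card_fin, ← Nat.cast_prod, ← hM]
      have hD0 : (0 : ℝ) ≤ ∏ j, D j := Finset.prod_nonneg fun j _ => (hD j).le
      have hM0 : (1 : ℝ) ≤ M := by exact_mod_cast hM1
      have e1 : ((B : ℝ) ^ δ) ^ q ≤ (B : ℝ) ^ ε := by
        rw [← Real.rpow_natCast, ← Real.rpow_mul hB0.le]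
        refine Real.rpow_le_rpow_of_exponent_le hB1 ?_
        rw [mul_comm]
        exact hδq
      have e2 : (M : ℝ) ^ (Bd ∪ W).card ≤ (M : ℝ) ^ Bd.card * Cp * Real.exp (ε * Z) := by
        calc (M : ℝ) ^ (Bd ∪ W).card ≤ (M : ℝ) ^ (Bd.card + W.card) :=
              pow_le_pow_right₀ hM0 (Finset.card_union_le _ _)
          _ = (M : ℝ) ^ Bd.card * (M : ℝ) ^ W.card := pow_add _ _ _
          _ ≤ (M : ℝ) ^ Bd.card * (Cp * Real.exp (ε * Z)) := by
              refine mul_le_mul_of_nonneg_left ((hpow W).trans ?_) (by positivity)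
              refine mul_le_mul_of_nonneg_left ?_ hCp.le
              rw [mul_comm ε Z, Real.exp_mul]
              refine Real.rpow_le_rpow ?_ hWZ hε.le
              rw [NS_exp]
              exact (Real.exp_pos _).le
          _ = _ := by ring
      exact mul_le_mul (mul_le_mul_of_nonneg_left e2 hD0) e1 (by positivity) (by positivity)
    calc ((EW W).ncard : ℝ) ≤
          (((2 * B + 1) ^ (finrank ℚ K * (m - ρ)) : ℕ) : ℝ) * (F.card : ℝ) := by
          exact_mod_cast hcard2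
      _ ≤ _ := by
          push_cast
          exact mul_le_mul_of_nonneg_left hFc (by positivity)
  -- the sets of primes
  obtain ⟨hfinS, hcS⟩ := hsets (Real.exp Z) (Real.one_le_exp hZ)
  have hfinS' : {W : Finset (HeightOneSpectrum (𝓞 K)) | H645.ABC.NS K W ≤ Real.exp Z}.Finite :=
    Set.finite_coe_iff.1 hfinS
  set 𝒲 := hfinS'.toFinset with h𝒲
  have hcW : (𝒲.card : ℝ) ≤ Cs * Real.exp Z := by
    rw [h𝒲, ← Set.ncard_eq_toFinset_card _ hfinS']
    exact hcS
  have hsub : ES L γ Bad B Z ⊆ ⋃ W ∈ 𝒲, EW W := by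
    intro c hc
    obtain ⟨W, hW, hcW⟩ := hcov c hc
    rw [Set.mem_iUnion₂]
    refine ⟨W, ?_, hcW⟩
    rw [h𝒲, Set.Finite.mem_toFinset]
    exact hW
  have hcount : ((ES L γ Bad B Z).ncard : ℝ) ≤ (𝒲.card : ℝ) *
      ((2 * B + 1 : ℝ) ^ (finrank ℚ K * (m - ρ)) *
        ((∏ j, D j) * ((M : ℝ) ^ Bd.card * Cp * Real.exp (ε * Z)) * (B : ℝ) ^ ε)) := by
    have h1 : (ES L γ Bad B Z).ncard ≤ ∑ W ∈ 𝒲, (EW W).ncard := by
      refine (Set.ncard_le_ncard hsub ?_).trans ?_
      · exact Set.Finite.biUnion (Finset.finite_toSet 𝒲) fun W _ => hEWf W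
      · exact Finset.set_ncard_biUnion_le 𝒲 EW
    have h2 : ((ES L γ Bad B Z).ncard : ℝ) ≤ ∑ W ∈ 𝒲, ((EW W).ncard : ℝ) := by
      exact_mod_cast h1
    refine h2.trans ?_
    rw [← nsmul_eq_mul, ← Finset.sum_const]
    refine Finset.sum_le_sum fun W hW => hone W ?_
    rw [h𝒲, Set.Finite.mem_toFinset] at hW
    exact hW
  have hbox : (2 * B + 1 : ℝ) ^ (finrank ℚ K * (m - ρ)) ≤
      3 ^ (finrank ℚ K * (m - ρ)) * (B : ℝ) ^ (finrank ℚ K * (m - ρ)) := by
    rw [← mul_pow]
    exact pow_le_pow_left₀ (by positivity) (by linarith) _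
  have hD0 : (0 : ℝ) ≤ ∏ j, D j := Finset.prod_nonneg fun j _ => (hD j).le
  calc ((ES L γ Bad B Z).ncard : ℝ) ≤ _ := hcount
    _ ≤ (Cs * Real.exp Z) * ((3 ^ (finrank ℚ K * (m - ρ)) *
        (B : ℝ) ^ (finrank ℚ K * (m - ρ))) *
        ((∏ j, D j) * ((M : ℝ) ^ Bd.card * Cp * Real.exp (ε * Z)) * (B : ℝ) ^ ε)) := by
        refine mul_le_mul hcW (mul_le_mul_of_nonneg_right hbox (by positivity))
          (by positivity) (by positivity)
    _ = _ := by
        have e1 : (B : ℝ) ^ ((finrank ℚ K : ℝ) * (m - ρ : ℕ) + ε) =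
            (B : ℝ) ^ (finrank ℚ K * (m - ρ)) * (B : ℝ) ^ ε := by
          rw [Real.rpow_add hB0, ← Real.rpow_natCast (B : ℝ) (finrank ℚ K * (m - ρ))]
          congr 2
          push_cast
          ring
        have e2 : Real.exp ((1 + ε) * Z) = Real.exp Z * Real.exp (ε * Z) := by
          rw [← Real.exp_add]
          congr 1
          ring
        rw [e1, e2]
        ring

end Pool.Agent.J6H73.PS
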