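import Pool.Agent.J6H73.PS.Line
import Pool.Agent.J6H73.P1.Num

/-!
# Rational curves of `ℙ¹ × ℙ¹`: the truncated inequality outside one set with a power saving
-/

set_option autoImplicit false
set_option linter.unusedSectionVars false

namespace Pool.Agent.J6H73.PS

open NumberField IsDedekindDomain Module Polynomial Height Pool.Agent.N753.DR
open Pool.Agent.J6H73.P1
open Pool.Agent.J6H60.DR (Cl dg Mt Nz mt_finite)

variable {K : Type} [Field K] [NumberField K]

/-- the curve maps the closed point to the divisor -/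
def Ov (R : K[X]) (N : ℕ) : Cl K → Prop
  | none => R.natDegree < N
  | some Q => Q.1 ∣ R

/-- near a closed point over the divisor the local height is at least the logarithm of the norm -/
theorem near_cl {a b q s : ℕ} {A B : Fin 2 → K[X]} (hA : IsMap a A)
    (hB : IsMap b B) {F : MvPolynomial (Fin 2 ⊕ Fin 2) K}
    (hF : F.IsWeightedHomogeneous wts (q, s))
    (hR : MvPolynomial.aeval (Sum.elim A B) F ≠ 0) (z : Cl K)
    (hz : Ov (MvPolynomial.aeval (Sum.elim A B) F) (a * q + b * s) z) :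
    ∃ d : ℕ, d ≠ 0 ∧ ∀ (M : Type) [Field M] [NumberField M]
      [Algebra K M] (x : M) (w : HeightOneSpectrum (𝓞 M)), (d : 𝓞 M) ∉ w.asIdeal →
      Mt x w z → aeval x (MvPolynomial.aeval (Sum.elim A B) F) ≠ 0 →
      lN w ≤ lam F q s w (fun i => aeval x (A i)) (fun i => aeval x (B i)) := by
  classical
  have hF0 : F ≠ 0 := by rintro rfl; simp at hR
  cases z with
  | none =>
    have hdeg : (MvPolynomial.aeval (Sum.elim A B) F).natDegree < a * q + b * s := hz
    have hAr : ∃ i, ¬ X ∣ reflect a (A i) := by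
      obtain ⟨i, hi⟩ := hA.coeff_ne
      exact ⟨i, fun h => hi (by rw [X_dvd_iff, refl_coeff_zero] at h; exact h)⟩
    have hBr : ∃ i, ¬ X ∣ reflect b (B i) := by
      obtain ⟨i, hi⟩ := hB.coeff_ne
      exact ⟨i, fun h => hi (by rw [X_dvd_iff, refl_coeff_zero] at h; exact h)⟩
    obtain ⟨d, hd, g⟩ := near_lam (k := K) irreducible_X (fun i => reflect a (A i))
      (fun i => reflect b (B i)) q s hF0 hAr hBr
      (dvd_refl_top hA.degree_le hB.degree_le hF hdeg)
    refine ⟨d, hd, fun M _ _ _ x w hdw hMt hRx => ?_⟩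
    have h2 : 1 < w.valuation M x := hMt
    have hx0 : x ≠ 0 := by
      rintro rfl
      rw [map_zero] at h2
      exact absurd h2 (by simp)
    have h3 := (Pool.Agent.J6H73.SB.val_inv_lt (w := w) hx0).2 h2
    have e1 : (fun i => aeval x⁻¹ (reflect a (A i))) =
        fun i => (x⁻¹) ^ a * aeval x (A i) := by
      funext i
      exact refl_eval hx0 (hA.degree_le i)
    have e2 : (fun i => aeval x⁻¹ (reflect b (B i))) =
        fun i => (x⁻¹) ^ b * aeval x (B i) := by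
      funext i
      exact refl_eval hx0 (hB.degree_le i)
    have hxi : x⁻¹ ≠ 0 := inv_ne_zero hx0
    have h4 := g M x⁻¹ w hdw h3.le (by rw [aeval_X]; exact h3) (by
      rw [e1, e2, ev_smul hF]
      rw [aeval_aeval] at hRx
      exact mul_ne_zero (mul_ne_zero (pow_ne_zero _ (pow_ne_zero _ hxi))
        (pow_ne_zero _ (pow_ne_zero _ hxi))) hRx)
    rw [e1, e2, lam_smul hF w (pow_ne_zero _ hxi) (pow_ne_zero _ hxi)] at h4
    exact h4
  | some Q =>
    have hdvd : Q.1 ∣ MvPolynomial.aeval (Sum.elim A B) F := hz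
    obtain ⟨d, hd, g⟩ := near_lam Q.2.2 A B q s hF0 (hA.not_dvd Q.2.2) (hB.not_dvd Q.2.2) hdvd
    refine ⟨d, hd, fun M _ _ _ x w hdw hMt hRx => ?_⟩
    have h2 : w.valuation M x ≤ 1 ∧ w.valuation M (aeval x Q.1) < 1 := hMt
    refine g M x w hdw h2.1 h2.2 ?_
    rw [← aeval_aeval]
    exact hRx

/-- two closed points are not met at the same prime -/
theorem disj_cl (z z' : Cl K) : ∃ d : ℕ, d ≠ 0 ∧ (z ≠ z' →
    ∀ (M : Type) [Field M] [NumberField M]
      [Algebra K M] (x : M) (w : HeightOneSpectrum (𝓞 M)), (d : 𝓞 M) ∉ w.asIdeal →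
      Mt x w z → ¬ Mt x w z') := by
  classical
  cases z with
  | none =>
    cases z' with
    | none => exact ⟨1, one_ne_zero, fun h => absurd rfl h⟩
    | some Q =>
      refine ⟨1, one_ne_zero, fun _ M _ _ _ x w _ h1 h2 => ?_⟩
      have h3 : 1 < w.valuation M x := h1
      have h4 : w.valuation M x ≤ 1 ∧ w.valuation M (aeval x Q.1) < 1 := h2
      exact absurd h3 (not_lt.2 h4.1)
  | some Q =>
    cases z' with
    | none =>
      refine ⟨1, one_ne_zero, fun _ M _ _ _ x w _ h1 h2 => ?_⟩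
      have h3 : 1 < w.valuation M x := h2
      have h4 : w.valuation M x ≤ 1 ∧ w.valuation M (aeval x Q.1) < 1 := h1
      exact absurd h3 (not_lt.2 h4.1)
    | some Q' =>
      obtain ⟨d, hd, g⟩ := val_fin Q.2.2 (fun _ : Fin 1 => Q'.1)
      refine ⟨d, hd, fun hne M _ _ _ x w hdw h1 h2 => ?_⟩
      have h3 : w.valuation M x ≤ 1 ∧ w.valuation M (aeval x Q.1) < 1 := h1
      have h4 : w.valuation M x ≤ 1 ∧ w.valuation M (aeval x Q'.1) < 1 := h2
      have h5 := (g M x w hdw h3.1 h3.2 0).2.1 (by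
        intro h6
        apply hne
        have h7 := Q.2.2.associated_of_dvd Q'.2.2 h6
        rw [Subtype.ext (eq_of_monic_of_associated Q.2.1 Q'.2.1 h7)])
      rw [h5] at h4
      exact absurd h4.2 (lt_irrefl _)

/-- the truncated inequality on a rational curve -/
theorem final3 {r : ℕ} {γ : ℝ} {E : Set K[X]}
    (hE : ∀ (q : ℕ) (Pt : Fin q → Cl K) (S : Finset ℕ), Function.Injective Pt →
        ∀ τ : ℝ, τ < min (r + 1) (∑ j, dg (Pt j)) - γ → ∃ U₀ : ℝ, 0 ≤ U₀ ∧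
        ∀ (M : Type) [Field M] [NumberField M] [Algebra K M] (x : M), finrank K M = r →
          (minpoly K x).natDegree = r → minpoly K x ∉ E → U₀ < logHeight₁ x →
          (∀ j, Nz x (Pt j)) → ∀ W : Finset (HeightOneSpectrum (𝓞 M)),
            (∀ j w, (∀ p ∈ S, p ≠ 0 → (p : 𝓞 M) ∉ w.asIdeal) → Mt x w (Pt j) → w ∈ W) →
            τ * logHeight₁ x ≤ ∑ w ∈ W, lN w)
    {a b q s : ℕ} {A B : Fin 2 → K[X]} (hA : IsMap a A)
    (hB : IsMap b B) {F : MvPolynomial (Fin 2 ⊕ Fin 2) K}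
    (hF : F.IsWeightedHomogeneous wts (q, s))
    (hR : MvPolynomial.aeval (Sum.elim A B) F ≠ 0) (S : Finset ℕ) (hS : ∀ p ∈ S, p ≠ 0)
    (t : ℕ) (G : Fin t → Finset (Cl K)) (hG : ∀ i j, i ≠ j → Disjoint (G i) (G j))
    (hov : ∀ i, ∀ z ∈ G i, Ov (MvPolynomial.aeval (Sum.elim A B) F) (a * q + b * s) z)
    (κ₁ κ₂ : ℝ) (hκ : κ₁ * a + κ₂ * b < ∑ i, (((min (r + 1) (∑ z ∈ G i, dg z) : ℕ) : ℝ) - γ)) :
    ∃ C : ℝ, ∀ (M : Type) [Field M] [NumberField M] [Algebra K M] (x : M), finrank K M = r →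
      (minpoly K x).natDegree = r → minpoly K x ∉ E →
      aeval x (MvPolynomial.aeval (Sum.elim A B) F) ≠ 0 →
      κ₁ * logHeight (fun i => aeval x (A i)) + κ₂ * logHeight (fun i => aeval x (B i)) ≤
        cnt S F q s (fun i => aeval x (A i)) (fun i => aeval x (B i)) + C := by
  classical
  set R := MvPolynomial.aeval (Sum.elim A B) F with hRdef
  set δ : ℝ := ∑ i, (((min (r + 1) (∑ z ∈ G i, dg z) : ℕ) : ℝ) - γ) - (κ₁ * a + κ₂ * b) with hδ
  have hδ0 : 0 < δ := sub_pos.2 hκ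
  set η : ℝ := δ / (t + 1) with hη
  have hη0 : 0 < η := by positivity
  have hηt : t * η ≤ δ := by
    rw [hη, mul_div_assoc', div_le_iff₀ (by positivity)]
    nlinarith
  set τ : Fin t → ℝ := fun i => ((min (r + 1) (∑ z ∈ G i, dg z) : ℕ) : ℝ) - γ - η with hτ
  have hτs : κ₁ * a + κ₂ * b ≤ ∑ i, τ i := by
    rw [hτ, Finset.sum_sub_distrib, Finset.sum_const, Finset.card_univ, Fintype.card_fin,
      nsmul_eq_mul]
    linarith
  -- the primes
  have h1 : ∀ i, ∀ z : G i, ∃ d : ℕ, d ≠ 0 ∧ ∀ (M : Type) [Field M] [NumberField M]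
      [Algebra K M] (x : M) (w : HeightOneSpectrum (𝓞 M)), (d : 𝓞 M) ∉ w.asIdeal →
      Mt x w z.1 → aeval x R ≠ 0 →
      lN w ≤ lam F q s w (fun i => aeval x (A i)) (fun i => aeval x (B i)) := fun i z =>
    near_cl hA hB hF hR z.1 (hov i z.1 z.2)
  choose d1 hd1 g1 using h1
  choose d2 hd2 g2 using disj_cl (K := K)
  set T : Finset (Cl K) := Finset.univ.biUnion G with hT
  set S' : Finset ℕ := S ∪ (Finset.univ.biUnion fun i => (G i).attach.image (d1 i)) ∪
    (T ×ˢ T).image (fun zz => d2 zz.1 zz.2) with hS'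
  -- the bounds for the groups
  have h3 : ∀ i, ∃ U₀ : ℝ, 0 ≤ U₀ ∧
        ∀ (M : Type) [Field M] [NumberField M] [Algebra K M] (x : M), finrank K M = r →
          (minpoly K x).natDegree = r → minpoly K x ∉ E → U₀ < logHeight₁ x →
          (∀ z ∈ G i, Nz x z) → ∀ W : Finset (HeightOneSpectrum (𝓞 M)),
            (∀ z ∈ G i, ∀ w, (∀ p ∈ S', p ≠ 0 → (p : 𝓞 M) ∉ w.asIdeal) → Mt x w z → w ∈ W) →
            τ i * logHeight₁ x ≤ ∑ w ∈ W, lN w := by
    intro i
    set e := (G i).equivFin.symm with he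
    have hsum : ∑ j, dg ((e j : Cl K)) = ∑ z ∈ G i, dg z := by
      rw [← Finset.sum_coe_sort (G i)]
      exact Equiv.sum_comp e (fun z : G i => dg (z : Cl K))
    obtain ⟨U₀, hU₀, h⟩ := hE (G i).card (fun j => (e j : Cl K)) S'
      (fun j j' h => e.injective (Subtype.ext h)) (τ i) (by
        rw [hsum]
        show ((min (r + 1) (∑ z ∈ G i, dg z) : ℕ) : ℝ) - γ - η < _
        linarith)
    refine ⟨U₀, hU₀, fun M _ _ _ x hM hx hxE hU hnz W hW => ?_⟩
    exact h M x hM hx hxE hU (fun j => hnz _ (e j).2) W fun j w h5 h6 => hW _ (e j).2 w h5 h6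
  choose U₀ hU₀ g3 using h3
  obtain ⟨C2, -, hC2⟩ := ht_map hA r
  obtain ⟨C3, -, hC3⟩ := ht_map hB r
  refine ⟨(|κ₁ * a + κ₂ * b| * ∑ i, U₀ i) + |κ₁| * C2 + |κ₂| * C3,
    fun M _ _ _ x hM hx hxE hRx => ?_⟩
  have hh0 : 0 ≤ logHeight₁ x := zero_le_logHeight₁ x
  have hRx' := hRx
  rw [hRdef, aeval_aeval] at hRx'
  have hUs : 0 ≤ ∑ i, U₀ i := Finset.sum_nonneg fun i _ => hU₀ i
  refine to_image (n := κ₁ * a + κ₂ * b) (δ := 0) (by ring) ?_ (hC2 M x hM.le) (hC3 M x hM.le)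
  rw [sub_zero]
  rcases le_or_gt (logHeight₁ x) (∑ i, U₀ i) with hle | hgt
  · have h4 := cnt_ge S hF (hA.eval_ne x) (hB.eval_ne x) hRx' ∅ (by simp)
    rw [Finset.sum_empty] at h4
    have h5 : (κ₁ * a + κ₂ * b) * logHeight₁ x ≤ |κ₁ * a + κ₂ * b| * ∑ i, U₀ i :=
      (mul_le_mul_of_nonneg_right (le_abs_self _) hh0).trans
        (mul_le_mul_of_nonneg_left hle (abs_nonneg _))
    linarith
  · have hnz : ∀ i, ∀ z ∈ G i, Nz x z := by
      intro i z hz
      have hz' := hov i z hz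
      cases z with
      | none => exact trivial
      | some Q =>
        intro h0
        have hdvd : Q.1 ∣ R := hz'
        obtain ⟨P, hP⟩ := hdvd
        apply hRx
        rw [hP, map_mul, h0, zero_mul]
    have hfin : ∀ i, {w : HeightOneSpectrum (𝓞 M) |
        (∀ p ∈ S', p ≠ 0 → (p : 𝓞 M) ∉ w.asIdeal) ∧ ∃ z ∈ G i, Mt x w z}.Finite := by
      intro i
      have h4 : (⋃ z ∈ G i, {w : HeightOneSpectrum (𝓞 M) | Mt x w z}).Finite :=
        Set.Finite.biUnion (Finset.finite_toSet (G i)) fun z hz => mt_finite x z (hnz i z hz)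
      refine h4.subset fun w hw => ?_
      obtain ⟨-, z, hz, h5⟩ := hw
      exact Set.mem_iUnion₂.2 ⟨z, hz, h5⟩
    set V : Fin t → Finset (HeightOneSpectrum (𝓞 M)) := fun i => (hfin i).toFinset with hV
    have hVm : ∀ i w, w ∈ V i ↔ ((∀ p ∈ S', p ≠ 0 → (p : 𝓞 M) ∉ w.asIdeal) ∧
        ∃ z ∈ G i, Mt x w z) := by
      intro i w
      rw [hV, Set.Finite.mem_toFinset]
      rfl
    have hdisj : ∀ i j, i ≠ j → Disjoint (V i) (V j) := by
      intro i j hij
      rw [Finset.disjoint_left]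
      intro w hw hw'
      obtain ⟨h4, z, hz, h5⟩ := (hVm i w).1 hw
      obtain ⟨-, z', hz', h5'⟩ := (hVm j w).1 hw'
      have hne : z ≠ z' := fun h => Finset.disjoint_left.1 (hG i j hij) hz (h ▸ hz')
      refine g2 z z' hne M x w (h4 _ ?_ (hd2 z z')) h5 h5'
      rw [hS', Finset.mem_union]
      exact Or.inr (Finset.mem_image.2 ⟨(z, z'), Finset.mem_product.2
        ⟨Finset.mem_biUnion.2 ⟨i, Finset.mem_univ _, hz⟩,
          Finset.mem_biUnion.2 ⟨j, Finset.mem_univ _, hz'⟩⟩, rfl⟩)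
    have h4 := cnt_ge S hF (hA.eval_ne x) (hB.eval_ne x) hRx' (Finset.univ.biUnion V) (by
      intro w hw
      rw [Finset.mem_biUnion] at hw
      obtain ⟨i, -, hw⟩ := hw
      obtain ⟨h4, z, hz, h5⟩ := (hVm i w).1 hw
      refine ⟨fun p hp => h4 p (by simp [hS', hp]) (hS p hp), ?_⟩
      refine g1 i ⟨z, hz⟩ M x w (h4 _ ?_ (hd1 i ⟨z, hz⟩)) h5 hRx
      rw [hS', Finset.mem_union, Finset.mem_union]
      exact Or.inl (Or.inr (Finset.mem_biUnion.2 ⟨i, Finset.mem_univ _,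
        Finset.mem_image_of_mem _ (Finset.mem_attach _ _)⟩)))
    rw [Finset.sum_biUnion (fun i _ j _ h => hdisj i j h)] at h4
    have h5 : ∀ i, τ i * logHeight₁ x ≤ ∑ w ∈ V i, lN w := by
      intro i
      refine g3 i M x hM hx hxE ?_ (hnz i) (V i) fun z hz w h6 h7 => (hVm i w).2 ⟨h6, z, hz, h7⟩
      exact lt_of_le_of_lt (Finset.single_le_sum (fun j _ => hU₀ j) (Finset.mem_univ i)) hgt
    have h6 := Finset.sum_le_sum fun i (_ : i ∈ (Finset.univ : Finset (Fin t))) => h5 i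
    rw [← Finset.sum_mul] at h6
    have h7 := mul_le_mul_of_nonneg_right hτs hh0
    have h8 : 0 ≤ |κ₁ * a + κ₂ * b| * ∑ i, U₀ i := mul_nonneg (abs_nonneg _) hUs
    linarith

/-- the number of exceptions as a proportion -/
theorem density' (K : Type) [Field K] [NumberField K] (r : ℕ) (hr : 1 ≤ r) (γ : ℝ) {E : Set K[X]}
    (hE : ∀ U : ℝ, 0 ≤ U →
      ({p | p ∈ E ∧ AtH r U p}.ncard : ℝ) ≤ Real.exp ((r + 1 - γ) * U - √U)) :
    ∀ T : ℝ, 0 ≤ T → ((E ∩ Nm K r T).ncard : ℝ) ≤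
      Real.exp ((r + 1 - γ) * (r * finrank ℚ K * T) - √T) := by
  intro T hT
  have hn : (1 : ℝ) ≤ finrank ℚ K := by
    exact_mod_cast (finrank_pos : 0 < finrank ℚ K)
  have hr' : (1 : ℝ) ≤ r := by exact_mod_cast hr
  have hrn : (1 : ℝ) ≤ r * finrank ℚ K := one_le_mul_of_one_le_of_one_le hr' hn
  have h1 := hE (r * finrank ℚ K * T) (by positivity)
  have h2 : E ∩ Nm K r T = {p | p ∈ E ∧ AtH r (r * finrank ℚ K * T) p} := by
    rw [Nm_eq K r]; rfl
  rw [h2]
  refine h1.trans (Real.exp_le_exp.2 ?_)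
  have h3 : √T ≤ √(r * finrank ℚ K * T) :=
    Real.sqrt_le_sqrt (le_mul_of_one_le_left hT hrn)
  linarith

end Pool.Agent.J6H73.PS
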