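import Mathlib
import Pool.Agent.J6H73.PS.Core
import Pool.Agent.J6H60.DR.LineW3

/-!
# Points of degree `r` of the line: sharp bounds for the truncated counting functions of groups of
# closed points, outside one set with a power saving
-/

set_option autoImplicit false
set_option linter.unusedSectionVars false

namespace Pool.Agent.J6H73.PS

open NumberField IsDedekindDomain Module Polynomial Pool.Agent.N753.DR Height
open Pool.Agent.N262.DR (lN_nonneg sum_under_le over_eq badS_finite pow_bound Bx_finite gp gp_eq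
  ht_inv)
open Pool.Agent.J6H60.DR (rk Cl dg Mt Nz Van exists_pl rk_line mt_finite atH_mono)

variable {K : Type} [Field K] [NumberField K]

/-- `p` is the minimal polynomial of a number of degree `r` for which the truncated counting function
of a group of closed points is at most `σ` times the height -/
def BadG (r : ℕ) {q : ℕ} (S : Finset ℕ) (Pt : Fin q → Cl K) (σ : ℝ) (p : K[X]) : Prop :=
  ∃ (M : Type) (_ : Field M) (_ : NumberField M) (_ : Algebra K M) (x : M),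
    finrank K M = r ∧ (minpoly K x).natDegree = r ∧ minpoly K x = p ∧ (∀ j, Nz x (Pt j)) ∧
    ∃ W : Finset (HeightOneSpectrum (𝓞 M)),
      (∀ j w, (∀ p ∈ S, p ≠ 0 → (p : 𝓞 M) ∉ w.asIdeal) → Mt x w (Pt j) → w ∈ W) ∧
      ∑ w ∈ W, lN w ≤ σ * logHeight₁ x

/-- few points have small truncated counting functions -/
theorem cntG (r : ℕ) (hr : 1 ≤ r) (S : Finset ℕ) {q : ℕ} (Pt : Fin q → Cl K)
    (hPt : Function.Injective Pt) (σ : ℝ) (hσ : 0 ≤ σ) {ε : ℝ} (hε : 0 < ε) :
    ∃ C : ℝ, 0 < C ∧ ∀ U : ℝ, 0 ≤ U → {p : K[X] | BadG r S Pt σ p ∧ AtH r U p}.Finite ∧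
      ({p : K[X] | BadG r S Pt σ p ∧ AtH r U p}.ncard : ℝ) ≤
        C * Real.exp ((((r + 1 - min (r + 1) (∑ j, dg (Pt j)) : ℕ) : ℝ) + σ + ε) * U) := by
  classical
  choose P hPd hPV Bad0 hP using fun j => exists_pl (K := K) r hr (Pt j)
  obtain ⟨BadR, C0, hC0, hR⟩ := Pool.Agent.N459.DR.t K r hr
  set BadS := (badS_finite (K := K) S).toFinset with hBadS
  set Bad := (Finset.univ.biUnion Bad0) ∪ BadR ∪ BadS with hBad
  set n : ℝ := (finrank ℚ K : ℝ) with hn
  have hn0 : 0 < n := by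
    rw [hn]; exact_mod_cast (Module.finrank_pos : 0 < finrank ℚ K)
  have hn1 : 1 ≤ n := by
    rw [hn]; exact_mod_cast (Module.finrank_pos : 0 < finrank ℚ K)
  set ε₁ : ℝ := ε / (1 + σ) with hε₁
  have hε₁0 : 0 < ε₁ := by positivity
  have hε₁σ : ε₁ * (1 + σ) = ε := by
    rw [hε₁]
    field_simp
  obtain ⟨C1, hC1, hcore⟩ := coreS (K := K) (m := r + 1) (fun j => (P j).L) (fun j => (P j).γ) Bad
    (ε := ε₁) hε₁0
  set ρ := rk K (fun j => (P j).L) (fun j => (P j).γ) with hρ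
  have hρ1 : min (r + 1) (∑ j, dg (Pt j)) ≤ ρ :=
    rk_line (fun j => (P j).L) (fun j => (P j).γ) Pt hPt hPV
  set D := ∑ j, dg (Pt j) with hD
  set c0 : ℝ := max C0 1 with hc0
  have hc01 : 1 ≤ c0 := le_max_right _ _
  set e : ℝ := n * ((r + 1 - min (r + 1) D : ℕ) : ℝ) + ε₁ with he
  have he0 : 0 ≤ e := by positivity
  refine ⟨C1 * (2 * c0) ^ |e|, by positivity, fun U hU => ?_⟩
  set y : ℝ := Real.exp (U / n) with hy
  have hy1 : 1 ≤ y := Real.one_le_exp (by positivity)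
  set B : ℕ := ⌈c0 * y⌉₊ with hB
  have hBl : c0 * y ≤ B := Nat.le_ceil _
  have hBu : (B : ℝ) ≤ 2 * c0 * y := by
    have := Nat.ceil_lt_add_one (a := c0 * y) (by positivity)
    have : 1 ≤ c0 * y := one_le_mul_of_one_le_of_one_le hc01 hy1
    linarith
  have hyB : y ≤ B := by
    have : 1 * y ≤ c0 * y := mul_le_mul_of_nonneg_right hc01 (by positivity)
    linarith
  have hB1 : 1 ≤ B := by
    have : (1 : ℝ) ≤ B := hy1.trans hyB
    exact_mod_cast this
  have hB1' : (1 : ℝ) ≤ B := by exact_mod_cast hB1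
  set E := ES (fun j => (P j).L) (fun j => (P j).γ) Bad B (σ * U) with hE
  have hEf : E.Finite := (Bx_finite (K := K) (r + 1) B).subset fun c hc => hc.1
  have hsub : {p : K[X] | BadG r S Pt σ p ∧ AtH r U p} ⊆ gp '' E := by
    rintro p ⟨⟨M, _, _, _, x, hM, hx, hxp, hnz, W, hW, hWs⟩,
      ⟨M', _, _, _, x', hM', hx', hxp', hU'⟩⟩
    have hht : Height.logHeight₁ x ≤ U := by
      rw [ht_inv x x' hM hx hM' (hxp.trans hxp'.symm)]
      exact hU'
    obtain ⟨c, l, hl, hcl, hprim, hsz⟩ := hR M x hM hx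
    have hxint : IsIntegral K x := by
      have : FiniteDimensional K M := Module.Finite.of_restrictScalars_finite ℚ K M
      exact IsIntegral.of_finite K x
    refine ⟨c, ⟨?_, ?_, ?_⟩, ?_⟩
    · intro j
      have h4 := hsz j
      have h5 : Real.exp (Height.logHeight₁ x / n) ≤ y :=
        Real.exp_le_exp.mpr (div_le_div_of_nonneg_right hht hn0.le)
      have h6 : (sz (c j) : ℝ) ≤ B := by
        refine h4.trans (le_trans ?_ hBl)
        exact mul_le_mul (le_max_left _ _) h5 (Real.exp_pos _).le (by positivity)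
      exact_mod_cast h6
    · exact fun j => (hP j M x c l hM hx hl hcl).1 (hnz j)
    · refine ⟨W.image fun u => HeightOneSpectrum.under (𝓞 K) u, ?_, ?_⟩
      · intro j v hv w hw hev
        have hvR : v ∉ BadR := fun h => hv (by simp only [hBad, Finset.mem_union]; tauto)
        have hvL : v ∉ Bad0 j := fun h => hv (by
          simp only [hBad, Finset.mem_union]
          exact Or.inl (Or.inl (Finset.mem_biUnion.2 ⟨j, Finset.mem_univ _, h⟩)))
        have hvS : v ∉ BadS := fun h => hv (by simp only [hBad, Finset.mem_union]; tauto)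
        obtain ⟨u, hu, huM⟩ := (hP j M x c l hM hx hl hcl).2 v hvL (hprim v hvR) w hw hev
        have hunder := over_eq hu
        rw [Finset.mem_image]
        refine ⟨u, hW j u ?_ huM, hunder⟩
        intro p hp hp0 hmem
        apply hvS
        rw [hBadS, Set.Finite.mem_toFinset]
        refine ⟨p, hp, hp0, ?_⟩
        rw [← hunder, HeightOneSpectrum.under_asIdeal, Ideal.under_def, Ideal.mem_comap,
          map_natCast]
        exact hmem
      · have h4 : ∑ v ∈ W.image (fun u => HeightOneSpectrum.under (𝓞 K) u), lN v ≤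
            ∑ u ∈ W, lN u := sum_under_le W _ fun v hv => Finset.mem_image.mp hv
        exact h4.trans (hWs.trans (mul_le_mul_of_nonneg_left hht hσ))
    · rw [← hxp]
      exact gp_eq (minpoly.monic hxint) hx hl hcl
  have hfin : (gp '' E).Finite := hEf.image _
  refine ⟨hfin.subset hsub, ?_⟩
  have h4 : ({p : K[X] | BadG r S Pt σ p ∧ AtH r U p}.ncard : ℝ) ≤ (E.ncard : ℝ) := by
    exact_mod_cast (Set.ncard_le_ncard hsub hfin).trans (Set.ncard_image_le hEf)
  refine h4.trans ((hcore B (σ * U) hB1 (by positivity)).trans ?_)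
  have h5 := pow_bound (c := 2 * c0) (B := B) (y := y) (E := e) (by linarith)
    (by positivity) hyB hBu
  have h6 : y ^ e = Real.exp ((((r + 1 - min (r + 1) D : ℕ) : ℝ) + ε₁ / n) * U) := by
    rw [hy, ← Real.exp_mul, he]
    congr 1
    field_simp
  rw [h6] at h5
  have h7 : (B : ℝ) ^ ((finrank ℚ K : ℝ) * (r + 1 - ρ : ℕ) + ε₁) ≤ (B : ℝ) ^ e := by
    refine Real.rpow_le_rpow_of_exponent_le hB1' ?_
    rw [he, ← hn]
    have h8 : ((r + 1 - ρ : ℕ) : ℝ) ≤ ((r + 1 - min (r + 1) D : ℕ) : ℝ) := by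
      exact_mod_cast (by omega : r + 1 - ρ ≤ r + 1 - min (r + 1) D)
    have := mul_le_mul_of_nonneg_left h8 hn0.le
    linarith
  calc C1 * (B : ℝ) ^ ((finrank ℚ K : ℝ) * (r + 1 - ρ : ℕ) + ε₁) *
        Real.exp ((1 + ε₁) * (σ * U))
      ≤ C1 * ((2 * c0) ^ |e| * Real.exp ((((r + 1 - min (r + 1) D : ℕ) : ℝ) + ε₁ / n) * U)) *
        Real.exp ((1 + ε₁) * (σ * U)) := by
        refine mul_le_mul_of_nonneg_right (mul_le_mul_of_nonneg_left (h7.trans h5) hC1.le)
          (Real.exp_pos _).le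
    _ = C1 * (2 * c0) ^ |e| * (Real.exp ((((r + 1 - min (r + 1) D : ℕ) : ℝ) + ε₁ / n) * U) *
        Real.exp ((1 + ε₁) * (σ * U))) := by ring
    _ ≤ C1 * (2 * c0) ^ |e| *
        Real.exp ((((r + 1 - min (r + 1) D : ℕ) : ℝ) + σ + ε) * U) := by
        refine mul_le_mul_of_nonneg_left ?_ (by positivity)
        rw [← Real.exp_add]
        refine Real.exp_le_exp.2 ?_
        have h9 : ε₁ / n ≤ ε₁ := div_le_self hε₁0.le hn1
        have h10 : (((r + 1 - min (r + 1) D : ℕ) : ℝ) + ε₁ / n) * U + (1 + ε₁) * (σ * U) =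
            (((r + 1 - min (r + 1) D : ℕ) : ℝ) + σ + (ε₁ / n + ε₁ * σ)) * U := by ring
        rw [h10]
        refine mul_le_mul_of_nonneg_right ?_ hU
        have h11 : ε₁ + ε₁ * σ = ε := by rw [← hε₁σ]; ring
        linarith

/-- one exceptional set -/
theorem oneG (r : ℕ) (hr : 1 ≤ r) (γ : ℝ) (hγ : γ < r + 1) :
    ∃ E : Set K[X],
      (∀ U : ℝ, 0 ≤ U → {p | p ∈ E ∧ AtH r U p}.Finite ∧
        ({p | p ∈ E ∧ AtH r U p}.ncard : ℝ) ≤ Real.exp ((r + 1 - γ) * U - √U)) ∧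
      ∀ (q : ℕ) (Pt : Fin q → Cl K) (S : Finset ℕ), Function.Injective Pt →
        ∀ τ : ℝ, τ < min (r + 1) (∑ j, dg (Pt j)) - γ → ∃ U₀ : ℝ, 0 ≤ U₀ ∧
        ∀ (M : Type) [Field M] [NumberField M] [Algebra K M] (x : M), finrank K M = r →
          (minpoly K x).natDegree = r → minpoly K x ∉ E → U₀ < logHeight₁ x →
          (∀ j, Nz x (Pt j)) → ∀ W : Finset (HeightOneSpectrum (𝓞 M)),
            (∀ j w, (∀ p ∈ S, p ≠ 0 → (p : 𝓞 M) ∉ w.asIdeal) → Mt x w (Pt j) → w ∈ W) →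
            τ * logHeight₁ x ≤ ∑ w ∈ W, lN w := by
  classical
  have hcK := Pool.Agent.N572.DR.KE.countable_pol K
  let Jt : Type := {s : (Σ q : ℕ, (Fin q → Cl K) × Finset ℕ × ℕ) // Function.Injective s.2.1}
  have hJ : Countable Jt := inferInstance
  let sg : Jt → ℝ := fun s =>
    ((min (r + 1) (∑ j, dg (s.1.2.1 j)) : ℕ) : ℝ) - γ - 1 / ((s.1.2.2.2 : ℝ) + 1)
  let A : Jt → K[X] → Prop := fun s p => 0 ≤ sg s ∧ BadG r s.1.2.2.1 s.1.2.1 (sg s) p
  obtain ⟨E, hE1, hE2⟩ := Pool.Agent.N572.DR.Diag.t K[X] Jt (fun U p => AtH r U p)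
    (fun U U' p h hp => atH_mono h hp) A ((r : ℝ) + 1 - γ) (by linarith) (by
      rintro ⟨⟨q, Pt, S, k⟩, hPt⟩
      simp only at hPt
      set η : ℝ := 1 / ((k : ℝ) + 1) with hη
      have hη0 : 0 < η := by positivity
      set D := ∑ j, dg (Pt j) with hDdef
      by_cases hσ : 0 ≤ ((min (r + 1) D : ℕ) : ℝ) - γ - η
      · obtain ⟨C, hC, h⟩ := cntG r hr S Pt hPt (((min (r + 1) D : ℕ) : ℝ) - γ - η) hσ
          (ε := η / 2) (by positivity)
        refine ⟨η / 2, C, by positivity, fun U hU => ?_⟩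
        obtain ⟨h1, h2⟩ := h U hU
        have hset : {p : K[X] | A ⟨⟨q, Pt, S, k⟩, hPt⟩ p ∧ AtH r U p} =
            {p : K[X] | BadG r S Pt (((min (r + 1) D : ℕ) : ℝ) - γ - η) p ∧ AtH r U p} := by
          ext p
          constructor
          · rintro ⟨⟨-, h3⟩, h4⟩
            exact ⟨h3, h4⟩
          · rintro ⟨h3, h4⟩
            exact ⟨⟨hσ, h3⟩, h4⟩
        rw [hset]
        refine ⟨h1, h2.trans (mul_le_mul_of_nonneg_left (Real.exp_le_exp.2 ?_) hC.le)⟩
        refine mul_le_mul_of_nonneg_right ?_ hU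
        rw [← hDdef]
        have e1 : ((r + 1 - min (r + 1) D : ℕ) : ℝ) = (r : ℝ) + 1 - ((min (r + 1) D : ℕ) : ℝ) := by
          rw [Nat.cast_sub (min_le_left _ _)]
          push_cast
          ring
        rw [e1]
        linarith
      · refine ⟨1, 1, one_pos, fun U hU => ?_⟩
        have hset : {p : K[X] | A ⟨⟨q, Pt, S, k⟩, hPt⟩ p ∧ AtH r U p} = ∅ := by
          ext p
          simp only [Set.mem_empty_iff_false, iff_false]
          rintro ⟨⟨h3, -⟩, -⟩
          exact hσ h3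
        rw [hset]
        refine ⟨Set.finite_empty, ?_⟩
        rw [Set.ncard_empty, Nat.cast_zero, one_mul]
        exact (Real.exp_pos _).le)
  refine ⟨E, hE1, ?_⟩
  intro q Pt S hPt τ hτ
  obtain ⟨k, hk⟩ := exists_nat_one_div_lt (sub_pos.2 hτ)
  obtain ⟨U₀, hU₀, h⟩ := hE2 ⟨⟨q, Pt, S, k⟩, hPt⟩
  refine ⟨U₀, hU₀, ?_⟩
  intro M _ _ _ x hM hx hxE hht hnz W hW
  have hh0 : 0 ≤ logHeight₁ x := zero_le_logHeight₁ x
  have hs0 : 0 ≤ ∑ w ∈ W, lN w := Finset.sum_nonneg fun w _ => lN_nonneg w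
  have hsg : τ ≤ sg ⟨⟨q, Pt, S, k⟩, hPt⟩ := by
    show τ ≤ ((min (r + 1) (∑ j, dg (Pt j)) : ℕ) : ℝ) - γ - 1 / ((k : ℝ) + 1)
    linarith
  by_contra hcon
  push Not at hcon
  have hτ0 : 0 ≤ sg ⟨⟨q, Pt, S, k⟩, hPt⟩ := by
    by_contra h1
    push Not at h1
    have h2 : τ * logHeight₁ x ≤ 0 := by nlinarith
    linarith
  have hbad : A ⟨⟨q, Pt, S, k⟩, hPt⟩ (minpoly K x) := by
    refine ⟨hτ0, M, inferInstance, inferInstance, inferInstance, x, hM, hx, rfl, hnz, W, hW, ?_⟩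
    exact hcon.le.trans (mul_le_mul_of_nonneg_right hsg hh0)
  obtain ⟨M', _, _, _, x', hM', hx', hxp', hU'⟩ := h _ hxE hbad
  rw [← ht_inv x x' hM hx hM' hxp'.symm] at hU'
  linarith

end Pool.Agent.J6H73.PS
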